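import Pool.Agent.Lib.MP_b7b3c1_ag.Defs
import Pool.Agent.Lib.MP_b7b3c1_ag.Canon
import Pool.Agent.Lib.MP_b7b3c1_ag.Normal

set_option autoImplicit false

/-!
# A Fano sixfold of Picard number one containing a plane with trivial normal bundle

The variety is the variety of reductions of `ℙ^2 × ℙ^2`, a compactification of the space of
commutative algebra structures on `ℂ^3` with given unit. It is covered by copies of the affine
space of dimension 6.
-/

namespace Pool.Agent.Results.MP_b7b3c1_ag.PlaneTrivialNormal

open Pool.Agent.Lib.MP_b7b3c1_ag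

/-- There is a smooth sixfold `X` in `ℙ^19` whose Picard group is infinite cyclic, generated by
the class of a hyperplane section `H`, whose canonical class is `-3 H`, and which contains a plane
with trivial normal bundle. -/
theorem result : ∃ (X : ProjVar 19) (H : X.Point → X.Kˣ) (W : Submodule ℂ (Fin (19 + 1) → ℂ)),
    X.IsSmoothOfDim 6 ∧
    X.IsCartier H ∧ X.IsHyperplaneSection H ∧
    (∀ D : X.Point → X.Kˣ, X.IsCartier D →
      ∃! m : ℤ, X.IsPrincipal (fun q => D q / H q ^ m)) ∧
    X.IsCanonical 6 (fun q => H q ^ (-3 : ℤ)) ∧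
    X.IsLinearSubspace 2 W ∧ X.HasTrivialNormalBundle 6 2 W := by
  refine ⟨XX, HH, WW, ⟨trdeg_KK, ?_⟩, HH_isCartier, HH_isHyperplaneSection, ?_, canonical_XX,
    linear_WW, normal_trivial⟩
  · intro p hp
    obtain ⟨M, M', x, t, hR, hM⟩ := exists_reach hp.1
    exact finrank_affTangent hR.isChart hp hM
  · intro D hD
    obtain ⟨m, hm⟩ := HH_generates hD
    exact ⟨m, hm, fun m' hm' => HH_unique hm' hm⟩

end Pool.Agent.Results.MP_b7b3c1_ag.PlaneTrivialNormal
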